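import Pool.Agent.Helper63.XR.StB

set_option autoImplicit false

namespace Pool.Agent.Helper36.XR

open Pool.Agent.Helper63.XR
open Finset Filter Topology

section
variable {R : Type} [NormedRing R] [NormedAlgebra ℂ R] [CompleteSpace R]

/-- The Newton iteration. -/
def nw (E : R) : ℕ → R
  | 0 => E
  | n + 1 => 3 * (nw E n * nw E n) - 2 * (nw E n * nw E n * nw E n)

omit [NormedAlgebra ℂ R] [CompleteSpace R] in
theorem nw_succ_sub (E : R) (n : ℕ) :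
    nw E (n + 1) - nw E n = (nw E n * nw E n - nw E n) * (1 - 2 * nw E n) := by
  rw [nw]
  noncomm_ring

omit [NormedAlgebra ℂ R] [CompleteSpace R] in
theorem nw_def (E : R) (n : ℕ) :
    nw E (n + 1) * nw E (n + 1) - nw E (n + 1)
      = -((nw E n * nw E n - nw E n) * (nw E n * nw E n - nw E n) * (3 - 4 * (nw E n * nw E n - nw E n))) := by
  rw [nw]
  noncomm_ring

omit [NormedAlgebra ℂ R] [CompleteSpace R] in
theorem nw_comm (E : R) (n : ℕ) : Commute (nw E n) E := by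
  induction n with
  | zero => exact Commute.refl E
  | succ n ih =>
    rw [nw]
    have h2 : Commute (nw E n * nw E n) E := ih.mul_left ih
    have h3 : Commute (nw E n * nw E n * nw E n) E := h2.mul_left ih
    have a3 : Commute (3 : R) E := by
      have := Nat.cast_commute (α := R) 3 E
      exact_mod_cast this
    have a2 : Commute (2 : R) E := by
      have := Nat.cast_commute (α := R) 2 E
      exact_mod_cast this
    exact (a3.mul_left h2).sub_left (a2.mul_left h3)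

omit [NormedAlgebra ℂ R] [CompleteSpace R] in
theorem norm_nat_mul (h1 : ‖(1 : R)‖ ≤ 1) (n : ℕ) (a : R) : ‖(n : R) * a‖ ≤ n * ‖a‖ := by
  refine (norm_mul_le _ _).trans ?_
  refine mul_le_mul_of_nonneg_right ?_ (norm_nonneg _)
  induction n with
  | zero => simp
  | succ n ih =>
    push_cast
    exact (norm_add_le _ _).trans (add_le_add ih h1)

omit [NormedAlgebra ℂ R] [CompleteSpace R] in
theorem nw_bound (h1 : ‖(1 : R)‖ ≤ 1) (E : R) (K1 δ : ℝ) (hK : 0 ≤ K1) (hδ : 0 < δ) (hδ1 : δ ≤ 1 / 24)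
    (hδ2 : 2 * δ * (2 * K1 + 3) ≤ 1) (hE : ‖E‖ ≤ K1) (hD : ‖E * E - E‖ ≤ δ) (n : ℕ) :
    ‖nw E n * nw E n - nw E n‖ ≤ δ * (1 / 2) ^ n ∧
      ‖nw E n - E‖ ≤ 2 * δ * (2 * K1 + 3) * (1 - (1 / 2) ^ n) ∧ ‖nw E n‖ ≤ K1 + 1 ∧
      ‖nw E (n + 1) - nw E n‖ ≤ δ * (2 * K1 + 3) * (1 / 2) ^ n := by
  have key : ∀ n, ‖nw E n * nw E n - nw E n‖ ≤ δ * (1 / 2) ^ n →
      ‖nw E n - E‖ ≤ 2 * δ * (2 * K1 + 3) * (1 - (1 / 2) ^ n) → ‖nw E n‖ ≤ K1 + 1 ∧
      ‖nw E (n + 1) - nw E n‖ ≤ δ * (2 * K1 + 3) * (1 / 2) ^ n := by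
    intro n ha hb
    have hp : (0 : ℝ) < (1 / 2) ^ n := by positivity
    have hc : ‖nw E n‖ ≤ K1 + 1 := by
      have h2 : nw E n = E + (nw E n - E) := by abel
      rw [h2]
      refine (norm_add_le _ _).trans (add_le_add hE (hb.trans ?_))
      have : 2 * δ * (2 * K1 + 3) * (1 - (1 / 2) ^ n) ≤ 2 * δ * (2 * K1 + 3) * 1 := by
        apply mul_le_mul_of_nonneg_left _ (by positivity)
        linarith
      linarith
    refine ⟨hc, ?_⟩
    rw [nw_succ_sub]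
    refine (norm_mul_le _ _).trans ?_
    have h3 : ‖(1 : R) - 2 * nw E n‖ ≤ 2 * K1 + 3 := by
      refine (norm_sub_le _ _).trans ?_
      have := norm_nat_mul h1 2 (nw E n)
      push_cast at this
      linarith
    calc ‖nw E n * nw E n - nw E n‖ * ‖(1 : R) - 2 * nw E n‖
        ≤ (δ * (1 / 2) ^ n) * (2 * K1 + 3) :=
          mul_le_mul ha h3 (norm_nonneg _) (by positivity)
      _ = δ * (2 * K1 + 3) * (1 / 2) ^ n := by ring
  induction n with
  | zero =>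
    have ha : ‖nw E 0 * nw E 0 - nw E 0‖ ≤ δ * (1 / 2) ^ 0 := by simpa [nw] using hD
    have hb : ‖nw E 0 - E‖ ≤ 2 * δ * (2 * K1 + 3) * (1 - (1 / 2) ^ 0) := by simp [nw]
    exact ⟨ha, hb, key 0 ha hb⟩
  | succ n ih =>
    obtain ⟨ha, hb, hc, hd⟩ := ih
    have hp : (0 : ℝ) < (1 / 2) ^ n := by positivity
    have hp1 : ((1 : ℝ) / 2) ^ n ≤ 1 := pow_le_one₀ (by norm_num) (by norm_num)
    have ha' : ‖nw E (n + 1) * nw E (n + 1) - nw E (n + 1)‖ ≤ δ * (1 / 2) ^ (n + 1) := by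
      rw [nw_def, norm_neg]
      set D := nw E n * nw E n - nw E n with hDdef
      have hDs : ‖D‖ ≤ δ := ha.trans (by nlinarith)
      have h4 : ‖(3 : R) - 4 * D‖ ≤ 4 := by
        refine (norm_sub_le _ _).trans ?_
        have e1 := norm_nat_mul h1 4 D
        have e2 := norm_nat_mul h1 3 (1 : R)
        push_cast at e1 e2
        rw [mul_one] at e2
        linarith
      have h5 : ‖D * D * (3 - 4 * D)‖ ≤ ‖D‖ * ‖D‖ * 4 := by
        refine (norm_mul_le _ _).trans ?_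
        exact mul_le_mul (norm_mul_le _ _) h4 (norm_nonneg _) (by positivity)
      refine h5.trans ?_
      rw [pow_succ]
      have h6 : ‖D‖ * ‖D‖ ≤ (δ * (1 / 2) ^ n) * δ := mul_le_mul ha hDs (norm_nonneg _) (by positivity)
      nlinarith [mul_pos hδ hp]
    have hb' : ‖nw E (n + 1) - E‖ ≤ 2 * δ * (2 * K1 + 3) * (1 - (1 / 2) ^ (n + 1)) := by
      have h2 : nw E (n + 1) - E = (nw E (n + 1) - nw E n) + (nw E n - E) := by abel
      rw [h2]
      refine (norm_add_le _ _).trans ((add_le_add hd hb).trans (le_of_eq ?_))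
      rw [pow_succ]
      ring
    exact ⟨ha', hb', key (n + 1) ha' hb'⟩

omit [NormedAlgebra ℂ R] in
/-- The idempotent. -/
theorem exists_idem (h1 : ‖(1 : R)‖ ≤ 1) (E : R) (K1 δ : ℝ) (hK : 0 ≤ K1) (hδ : 0 < δ) (hδ1 : δ ≤ 1 / 24)
    (hδ2 : 2 * δ * (2 * K1 + 3) ≤ 1) (hE : ‖E‖ ≤ K1) (hD : ‖E * E - E‖ ≤ δ) :
    ∃ e : R, e * e = e ∧ Commute e E ∧ ‖e - E‖ ≤ 2 * δ * (2 * K1 + 3) ∧ ‖e‖ ≤ K1 + 1 := by
  have hb := nw_bound h1 E K1 δ hK hδ hδ1 hδ2 hE hD
  have hC : CauchySeq (nw E) := by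
    refine cauchySeq_of_le_geometric (1 / 2) (δ * (2 * K1 + 3)) (by norm_num) fun n => ?_
    rw [dist_comm, dist_eq_norm]
    exact (hb n).2.2.2
  obtain ⟨e, he⟩ := cauchySeq_tendsto_of_complete hC
  refine ⟨e, ?_, ?_, ?_, ?_⟩
  · have h2 : Tendsto (fun n => nw E n * nw E n - nw E n) atTop (𝓝 (e * e - e)) := (he.mul he).sub he
    have h3 : Tendsto (fun n => nw E n * nw E n - nw E n) atTop (𝓝 0) := by
      refine squeeze_zero_norm (fun n => (hb n).1) ?_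
      have := (tendsto_pow_atTop_nhds_zero_of_lt_one (r := (1 / 2 : ℝ)) (by norm_num) (by norm_num)).const_mul δ
      rwa [mul_zero] at this
    exact sub_eq_zero.1 (tendsto_nhds_unique h2 h3)
  · have h2 : Tendsto (fun n => nw E n * E) atTop (𝓝 (e * E)) := he.mul tendsto_const_nhds
    have h3 : Tendsto (fun n => nw E n * E) atTop (𝓝 (E * e)) := by
      have : (fun n => nw E n * E) = fun n => E * nw E n := by
        funext n; exact nw_comm E n
      rw [this]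
      exact tendsto_const_nhds.mul he
    exact tendsto_nhds_unique h2 h3
  · refine le_of_tendsto ((he.sub tendsto_const_nhds).norm) (Eventually.of_forall fun n => ?_)
    refine (hb n).2.1.trans ?_
    have hp : (0 : ℝ) < (1 / 2) ^ n := by positivity
    have : 2 * δ * (2 * K1 + 3) * (1 - (1 / 2) ^ n) ≤ 2 * δ * (2 * K1 + 3) * 1 := by
      apply mul_le_mul_of_nonneg_left _ (by positivity)
      linarith
    linarith
  · exact le_of_tendsto he.norm (Eventually.of_forall fun n => (hb n).2.2.1)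

omit [NormedAlgebra ℂ R] in
/-- Elements near one are invertible. -/
theorem exists_unit (h1 : ‖(1 : R)‖ ≤ 1) (s : R) (hs : ‖s‖ ≤ 1 / 2) :
    ∃ u : Rˣ, (u : R) = 1 + s ∧ ‖((u⁻¹ : Rˣ) : R)‖ ≤ 2 := by
  have hs' : ‖-s‖ < 1 := by rw [norm_neg]; linarith
  refine ⟨Units.oneSub (-s) hs', by simp, ?_⟩
  have h2 : ((Units.oneSub (-s) hs')⁻¹ : Rˣ) = ((Units.oneSub (-s) hs')⁻¹ : Rˣ) := rfl
  set u := Units.oneSub (-s) hs' with hu
  have h3 : (u : R) = 1 + s := by simp [hu]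
  have h4 : ((u⁻¹ : Rˣ) : R) = 1 - s * ((u⁻¹ : Rˣ) : R) := by
    have h5 : (u : R) * ((u⁻¹ : Rˣ) : R) = 1 := u.mul_inv
    rw [h3, add_mul, one_mul] at h5
    exact eq_sub_of_add_eq h5
  have h6 : ‖((u⁻¹ : Rˣ) : R)‖ ≤ 1 + 1 / 2 * ‖((u⁻¹ : Rˣ) : R)‖ := by
    calc ‖((u⁻¹ : Rˣ) : R)‖ = ‖1 - s * ((u⁻¹ : Rˣ) : R)‖ := by rw [← h4]
      _ ≤ ‖(1 : R)‖ + ‖s * ((u⁻¹ : Rˣ) : R)‖ := norm_sub_le _ _
      _ ≤ 1 + ‖s‖ * ‖((u⁻¹ : Rˣ) : R)‖ := add_le_add h1 (norm_mul_le _ _)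
      _ ≤ 1 + 1 / 2 * ‖((u⁻¹ : Rˣ) : R)‖ := by
          have := mul_le_mul_of_nonneg_right hs (norm_nonneg ((u⁻¹ : Rˣ) : R))
          linarith
  linarith

end

theorem hNEW : StNew := by
  intro K
  have hK1 : 0 ≤ K ^ 2 := sq_nonneg K
  have hpos : 0 < 4 * (2 * K ^ 2 + 3) * (K ^ 2 + 2) := by positivity
  refine ⟨2 * K * (K ^ 2 + 2), 1 / (4 * (2 * K ^ 2 + 3) * (K ^ 2 + 2)), by positivity, ?_⟩
  intro R _ _ _ h1 x y z hx hy hz hxyz hD
  set δ : ℝ := 1 / (4 * (2 * K ^ 2 + 3) * (K ^ 2 + 2)) with hδ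
  have hδ0 : 0 < δ := by positivity
  have hδe : δ * (4 * (2 * K ^ 2 + 3) * (K ^ 2 + 2)) = 1 := by
    rw [hδ]; field_simp
  have hδ1 : δ ≤ 1 / 24 := by
    rw [hδ]
    apply one_div_le_one_div_of_le (by norm_num)
    nlinarith
  have hK0 : 0 ≤ K := (norm_nonneg x).trans hx
  have hδ2 : 2 * δ * (2 * K ^ 2 + 3) ≤ 1 := by
    have h3 : 0 ≤ δ * (2 * K ^ 2 + 3) := by positivity
    nlinarith [mul_nonneg h3 hK1]
  have hE : ‖x * y‖ ≤ K ^ 2 := by
    refine (norm_mul_le _ _).trans ?_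
    rw [sq]
    exact mul_le_mul hx hy (norm_nonneg _) hK0
  set E := x * y with hEdef
  obtain ⟨e, hee, heE, heN, heB⟩ := exists_idem h1 E (K ^ 2) δ hK1 hδ0 hδ1 hδ2 hE hD
  have hsmall : 2 * δ * (2 * K ^ 2 + 3) * (K ^ 2 + 2) = 1 / 2 := by nlinarith
  -- the first correction
  have hs1 : ‖(E - e) * e‖ ≤ 1 / 2 := by
    refine (norm_mul_le _ _).trans ?_
    rw [norm_sub_rev]
    have : ‖e - E‖ * ‖e‖ ≤ 2 * δ * (2 * K ^ 2 + 3) * (K ^ 2 + 1) :=
      mul_le_mul heN heB (norm_nonneg _) (by positivity)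
    have h3 : 0 ≤ δ * (2 * K ^ 2 + 3) := by positivity
    nlinarith
  obtain ⟨u, hu, hun⟩ := exists_unit h1 _ hs1
  have hs2 : ‖(e - E) * (1 - e)‖ ≤ 1 / 2 := by
    refine (norm_mul_le _ _).trans ?_
    have h4 : ‖(1 : R) - e‖ ≤ K ^ 2 + 2 := by
      refine (norm_sub_le _ _).trans ?_
      linarith
    have : ‖e - E‖ * ‖(1 : R) - e‖ ≤ 2 * δ * (2 * K ^ 2 + 3) * (K ^ 2 + 2) :=
      mul_le_mul heN h4 (norm_nonneg _) (by positivity)
    linarith
  obtain ⟨u', hu', hun'⟩ := exists_unit h1 _ hs2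
  have hc1 : Commute e (u : R) := by
    rw [hu]
    have a1 : Commute e (E - e) := heE.sub_right (Commute.refl e)
    exact (Commute.one_right e).add_right (a1.mul_right (Commute.refl e))
  have hc2 : Commute e (u' : R) := by
    rw [hu']
    have a1 : Commute e (e - E) := (Commute.refl e).sub_right heE
    have a2 : Commute e (1 - e) := (Commute.one_right e).sub_right (Commute.refl e)
    exact (Commute.one_right e).add_right (a1.mul_right a2)
  have hv1 : E * (e * ((u⁻¹ : Rˣ) : R)) = e := by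
    have a1 : (u : R) * e = E * e := by
      rw [hu, add_mul, one_mul, mul_assoc, hee, sub_mul, hee]
      abel
    rw [← mul_assoc, ← a1, ← hc1.eq, mul_assoc, u.mul_inv, mul_one]
  have hv2 : (1 - E) * ((1 - e) * ((u'⁻¹ : Rˣ) : R)) = 1 - e := by
    have a0 : (1 - e) * (1 - e) = 1 - e := by
      rw [sub_mul, one_mul, mul_sub, mul_one, hee]
      abel
    have a1 : (u' : R) * (1 - e) = (1 - E) * (1 - e) := by
      have : (e - E) * (1 - e) = (1 - E) * (1 - e) - (1 - e) * (1 - e) := by rw [← sub_mul]; congr 1; abel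
      rw [hu', add_mul, one_mul, mul_assoc, a0, this, a0]
      abel
    have a2 : Commute (1 - e) (u' : R) := (Commute.one_left _).sub_left hc2
    rw [← mul_assoc, ← a1, ← a2.eq, mul_assoc, u'.mul_inv, mul_one]
  have hxz : 1 - E = (1 - x) * z := (eq_sub_of_add_eq' hxyz).symm
  have hxy' : x * (y * (e * ((u⁻¹ : Rˣ) : R))) = e := by rw [← mul_assoc]; exact hv1
  refine ⟨y * (e * ((u⁻¹ : Rˣ) : R)), z * ((1 - e) * ((u'⁻¹ : Rˣ) : R)), ?_, ?_, ?_, ?_⟩
  · refine (norm_mul_le _ _).trans ?_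
    have b1 : ‖e * ((u⁻¹ : Rˣ) : R)‖ ≤ (K ^ 2 + 1) * 2 :=
      (norm_mul_le _ _).trans (mul_le_mul heB hun (norm_nonneg _) (by positivity))
    have b2 : ‖y‖ * ‖e * ((u⁻¹ : Rˣ) : R)‖ ≤ K * ((K ^ 2 + 1) * 2) :=
      mul_le_mul hy b1 (norm_nonneg _) hK0
    nlinarith
  · refine (norm_mul_le _ _).trans ?_
    have h4 : ‖(1 : R) - e‖ ≤ K ^ 2 + 2 := by
      refine (norm_sub_le _ _).trans ?_
      linarith
    have b1 : ‖(1 - e) * ((u'⁻¹ : Rˣ) : R)‖ ≤ (K ^ 2 + 2) * 2 :=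
      (norm_mul_le _ _).trans (mul_le_mul h4 hun' (norm_nonneg _) (by positivity))
    have b2 : ‖z‖ * ‖(1 - e) * ((u'⁻¹ : Rˣ) : R)‖ ≤ K * ((K ^ 2 + 2) * 2) :=
      mul_le_mul hz b1 (norm_nonneg _) hK0
    nlinarith
  · rw [hxy', hee]
  · rw [hxy', ← mul_assoc, ← hxz, hv2]

end Pool.Agent.Helper36.XR
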