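import Pool.Agent.Helper63.XR.StB

set_option autoImplicit false

namespace Pool.Agent.Helper36.XR

open Pool.Agent.Helper63.XR
open Finset Filter Topology MeasureTheory

section
variable {X : Type} [TopologicalSpace X] [CompactSpace X]

/-- The unimodular functions. -/
noncomputable def uu (ψ : C(X, ℝ)) (t : ℝ) : C(X, ℂ) :=
  ⟨fun x => Complex.exp (Complex.I * ((t * ψ x : ℝ) : ℂ)), by fun_prop⟩

omit [CompactSpace X] in
theorem uu_apply (ψ : C(X, ℝ)) (t : ℝ) (x : X) :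
    uu ψ t x = Complex.exp (Complex.I * ((t * ψ x : ℝ) : ℂ)) := rfl

theorem uu_norm (ψ : C(X, ℝ)) (t : ℝ) : ‖uu ψ t‖ ≤ 1 := by
  rw [ContinuousMap.norm_le _ zero_le_one]
  intro x
  rw [uu_apply, mul_comm, Complex.norm_exp_ofReal_mul_I]

theorem uu_mul (ψ : C(X, ℝ)) (t : ℝ) : uu ψ (-t) * uu ψ t = 1 := by
  ext x
  rw [ContinuousMap.mul_apply, uu_apply, uu_apply, ← Complex.exp_add, ContinuousMap.one_apply]
  rw [show Complex.I * ((-t * ψ x : ℝ) : ℂ) + Complex.I * ((t * ψ x : ℝ) : ℂ) = 0 by push_cast; ring,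
    Complex.exp_zero]

theorem uu_sub_one (ψ : C(X, ℝ)) (t : ℝ) : ‖uu ψ t - 1‖ ≤ |t| * ‖ψ‖ := by
  rw [ContinuousMap.norm_le _ (by positivity)]
  intro x
  have h1 : (uu ψ t - 1) x = Complex.exp (Complex.I * ((t * ψ x : ℝ) : ℂ)) - 1 := rfl
  rw [h1]
  refine (Real.norm_exp_I_mul_ofReal_sub_one_le (x := t * ψ x)).trans ?_
  rw [norm_mul, Real.norm_eq_abs]
  exact mul_le_mul_of_nonneg_left (ψ.norm_coe_le_norm x) (abs_nonneg t)

theorem uu_second (ψ : C(X, ℝ)) (t : ℝ) (h : |t| * ‖ψ‖ ≤ 1) :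
    ‖uu ψ t - 1 - (Complex.I * (t : ℂ)) • cx ψ‖ ≤ (|t| * ‖ψ‖) ^ 2 := by
  rw [ContinuousMap.norm_le _ (by positivity)]
  intro x
  have h1 : (uu ψ t - 1 - (Complex.I * (t : ℂ)) • cx ψ) x
      = Complex.exp (Complex.I * ((t * ψ x : ℝ) : ℂ)) - 1 - Complex.I * ((t * ψ x : ℝ) : ℂ) := by
    show Complex.exp (Complex.I * ((t * ψ x : ℝ) : ℂ)) - 1 - (Complex.I * (t : ℂ)) * ((ψ x : ℝ) : ℂ) = _
    push_cast
    ring
  rw [h1]
  have h2 : ‖Complex.I * ((t * ψ x : ℝ) : ℂ)‖ ≤ |t| * ‖ψ‖ := by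
    rw [norm_mul, Complex.norm_I, one_mul, Complex.norm_real, norm_mul, Real.norm_eq_abs]
    exact mul_le_mul_of_nonneg_left (ψ.norm_coe_le_norm x) (abs_nonneg t)
  refine (Complex.norm_exp_sub_one_sub_id_le (h2.trans h)).trans ?_
  exact pow_le_pow_left₀ (norm_nonneg _) h2 2

variable (ρ : Rep X)

theorem pi_le (φ : C(X, ℂ)) (f : Lp ℂ 1 ρ.ν) : ‖ρ.π φ f‖ ≤ ‖φ‖ * ‖f‖ :=
  ((ρ.π φ).le_opNorm f).trans (mul_le_mul_of_nonneg_right (ρ.contr φ) (norm_nonneg _))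

theorem pi_isom (ψ : C(X, ℝ)) (t : ℝ) (f : Lp ℂ 1 ρ.ν) : ‖ρ.π (uu ψ t) f‖ = ‖f‖ := by
  apply le_antisymm
  · refine (pi_le ρ _ f).trans ?_
    have := mul_le_mul_of_nonneg_right (uu_norm ψ t) (norm_nonneg f)
    linarith
  · have h1 : ρ.π (uu ψ (-t)) (ρ.π (uu ψ t) f) = f := by
      have h2 : ρ.π (uu ψ (-t)) (ρ.π (uu ψ t) f) = (ρ.π (uu ψ (-t)) * ρ.π (uu ψ t)) f := rfl
      rw [h2, ← map_mul, uu_mul, map_one]
      rfl
    have h3 := pi_le ρ (uu ψ (-t)) (ρ.π (uu ψ t) f)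
    rw [h1] at h3
    have := mul_le_mul_of_nonneg_right (uu_norm ψ (-t)) (norm_nonneg (ρ.π (uu ψ t) f))
    linarith

theorem pi_tendsto {F : ℕ → C(X, ℂ)} {φ : C(X, ℂ)} (hF : Tendsto F atTop (𝓝 φ)) (f : Lp ℂ 1 ρ.ν) :
    Tendsto (fun n => ρ.π (F n) f) atTop (𝓝 (ρ.π φ f)) := by
  rw [tendsto_iff_norm_sub_tendsto_zero] at hF ⊢
  have h2 : Tendsto (fun n => ‖F n - φ‖ * ‖f‖) atTop (𝓝 0) := by
    have := hF.mul_const ‖f‖
    rwa [zero_mul] at this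
  refine squeeze_zero (fun n => norm_nonneg _) (fun n => ?_) h2
  have h3 : ρ.π (F n) f - ρ.π φ f = ρ.π (F n - φ) f := by
    rw [map_sub]
    rfl
  rw [h3]
  exact pi_le ρ _ f

/-- The real case. -/
theorem real_case (hRa : StRa) (ψ : C(X, ℝ)) (f g : Lp ℂ 1 ρ.ν)
    (hfg : ∀ᵐ y ∂ρ.ν, f y = 0 ∨ g y = 0) : ∀ᵐ y ∂ρ.ν, f y = 0 ∨ (ρ.π (cx ψ) g) y = 0 := by
  set t : ℕ → ℝ := fun n => 1 / ((n : ℝ) + 1) with ht
  have htpos : ∀ n, 0 < t n := fun n => by rw [ht]; positivity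
  have ht0 : Tendsto t atTop (𝓝 0) := tendsto_one_div_add_atTop_nhds_zero_nat
  have habs : ∀ n, |t n| = t n := fun n => abs_of_pos (htpos n)
  have hl1 : Tendsto (fun n => uu ψ (t n)) atTop (𝓝 1) := by
    rw [tendsto_iff_norm_sub_tendsto_zero]
    have h2 : Tendsto (fun n => |t n| * ‖ψ‖) atTop (𝓝 0) := by
      simp only [habs]
      have := ht0.mul_const ‖ψ‖
      rwa [zero_mul] at this
    exact squeeze_zero (fun n => norm_nonneg _) (fun n => uu_sub_one ψ (t n)) h2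
  have hl2 : Tendsto (fun n => ((t n : ℂ)⁻¹) • (uu ψ (t n) - 1)) atTop (𝓝 (Complex.I • cx ψ)) := by
    rw [tendsto_iff_norm_sub_tendsto_zero]
    have h2 : Tendsto (fun n => t n * ‖ψ‖ ^ 2) atTop (𝓝 0) := by
      have := ht0.mul_const (‖ψ‖ ^ 2)
      rwa [zero_mul] at this
    have h4 : ∀ᶠ n in atTop, |t n| * ‖ψ‖ ≤ 1 := by
      have h5 : Tendsto (fun n => |t n| * ‖ψ‖) atTop (𝓝 0) := by
        simp only [habs]
        have := ht0.mul_const ‖ψ‖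
        rwa [zero_mul] at this
      exact (h5.eventually (gt_mem_nhds (show (0 : ℝ) < 1 by norm_num))).mono fun n hn => hn.le
    refine squeeze_zero' (Eventually.of_forall fun n => norm_nonneg _) ?_ h2
    filter_upwards [h4] with n hn
    have htc : (t n : ℂ) ≠ 0 := by
      have := (htpos n).ne'
      exact_mod_cast this
    have h6 : ((t n : ℂ)⁻¹) • (uu ψ (t n) - 1) - Complex.I • cx ψ
        = ((t n : ℂ)⁻¹) • (uu ψ (t n) - 1 - (Complex.I * (t n : ℂ)) • cx ψ) := by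
      rw [smul_sub ((t n : ℂ)⁻¹) (uu ψ (t n) - 1) _, smul_smul]
      congr 2
      field_simp
    rw [h6, norm_smul, norm_inv, Complex.norm_real, Real.norm_eq_abs]
    have h7 := uu_second ψ (t n) hn
    rw [habs] at h7 ⊢
    have h8 : (t n)⁻¹ * ‖uu ψ (t n) - 1 - (Complex.I * (t n : ℂ)) • cx ψ‖
        ≤ (t n)⁻¹ * (t n * ‖ψ‖) ^ 2 :=
      mul_le_mul_of_nonneg_left h7 (inv_nonneg.2 (htpos n).le)
    refine h8.trans (le_of_eq ?_)
    have := (htpos n).ne'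
    field_simp
  have hL1 := pi_tendsto ρ hl1 f
  rw [map_one] at hL1
  have hL1' : Tendsto (fun n => ρ.π (uu ψ (t n)) f) atTop (𝓝 f) := hL1
  have hL2 := pi_tendsto ρ hl2 g
  obtain ⟨ns, hns, hns2⟩ := (tendstoInMeasure_of_tendsto_Lp hL1').exists_seq_tendsto_ae
  have hL3 := hL2.comp hns.tendsto_atTop
  obtain ⟨ms, hms, hms2⟩ := (tendstoInMeasure_of_tendsto_Lp hL3).exists_seq_tendsto_ae
  -- the pointwise facts
  have hA : ∀ᵐ y ∂ρ.ν, ∀ n, (ρ.π (uu ψ (t n)) f) y = 0 ∨ (ρ.π (uu ψ (t n)) g) y = 0 := by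
    rw [ae_all_iff]
    intro n
    exact @hRa ρ.Y ρ.mY ρ.ν (ρ.π (uu ψ (t n))) (pi_isom ρ ψ (t n)) f g hfg
  have hB : ∀ᵐ y ∂ρ.ν, ∀ n, (ρ.π (((t n : ℂ)⁻¹) • (uu ψ (t n) - 1)) g) y
      = ((t n : ℂ)⁻¹) * ((ρ.π (uu ψ (t n)) g) y - g y) := by
    rw [ae_all_iff]
    intro n
    have h1 : ρ.π (((t n : ℂ)⁻¹) • (uu ψ (t n) - 1)) g
        = ((t n : ℂ)⁻¹) • (ρ.π (uu ψ (t n)) g - g) := by
      rw [map_smul, map_sub, map_one]
      rfl
    rw [h1]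
    filter_upwards [Lp.coeFn_smul ((t n : ℂ)⁻¹) (ρ.π (uu ψ (t n)) g - g),
      Lp.coeFn_sub (ρ.π (uu ψ (t n)) g) g] with y h2 h3
    rw [h2, Pi.smul_apply, h3, Pi.sub_apply, smul_eq_mul]
  have hC : ∀ᵐ y ∂ρ.ν, (ρ.π (Complex.I • cx ψ) g) y = Complex.I * (ρ.π (cx ψ) g) y := by
    have h1 : ρ.π (Complex.I • cx ψ) g = Complex.I • ρ.π (cx ψ) g := by
      rw [map_smul]
      rfl
    rw [h1]
    filter_upwards [Lp.coeFn_smul Complex.I (ρ.π (cx ψ) g)] with y h2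
    rw [h2, Pi.smul_apply, smul_eq_mul]
  filter_upwards [hfg, hns2, hms2, hA, hB, hC] with y h1 h2 h3 h4 h5 h6
  by_cases hf : f y = 0
  · exact Or.inl hf
  right
  have hg : g y = 0 := h1.resolve_left hf
  have h7 : Tendsto (fun i => (ρ.π (uu ψ (t (ns (ms i)))) f) y) atTop (𝓝 (f y)) :=
    h2.comp hms.tendsto_atTop
  have h8 : ∀ᶠ i in atTop, (ρ.π (uu ψ (t (ns (ms i)))) f) y ≠ 0 := h7.eventually_ne hf
  have h9 : ∀ᶠ i in atTop,
      (ρ.π (((t (ns (ms i)) : ℂ)⁻¹) • (uu ψ (t (ns (ms i))) - 1)) g) y = 0 := by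
    filter_upwards [h8] with i hi
    rw [h5, (h4 _).resolve_left hi, hg]
    simp
  have h10 : Tendsto (fun i => (ρ.π (((t (ns (ms i)) : ℂ)⁻¹) • (uu ψ (t (ns (ms i))) - 1)) g) y)
      atTop (𝓝 ((ρ.π (Complex.I • cx ψ) g) y)) := h3
  have h11 : (ρ.π (Complex.I • cx ψ) g) y = 0 := by
    have h12 : Tendsto (fun _ : ℕ => (0 : ℂ)) atTop (𝓝 ((ρ.π (Complex.I • cx ψ) g) y)) :=
      (tendsto_congr' h9).1 h10
    exact tendsto_nhds_unique h12 tendsto_const_nhds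
  rw [h6] at h11
  exact (mul_eq_zero.1 h11).resolve_left Complex.I_ne_zero

end

theorem hRB : StRb := by
  intro hRa X _ _ ρ φ f g hfg
  set re : C(X, ℝ) := ⟨fun x => (φ x).re, by fun_prop⟩ with hre
  set im : C(X, ℝ) := ⟨fun x => (φ x).im, by fun_prop⟩ with him
  have h1 : φ = cx re + Complex.I • cx im := by
    ext x
    show φ x = ((φ x).re : ℂ) + Complex.I * ((φ x).im : ℂ)
    rw [mul_comm Complex.I, Complex.re_add_im]
  have h2 : ρ.π φ g = ρ.π (cx re) g + Complex.I • ρ.π (cx im) g := by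
    conv_lhs => rw [h1, map_add, map_smul]
    rfl
  rw [h2]
  filter_upwards [real_case ρ hRa re f g hfg, real_case ρ hRa im f g hfg,
    Lp.coeFn_add (ρ.π (cx re) g) (Complex.I • ρ.π (cx im) g),
    Lp.coeFn_smul Complex.I (ρ.π (cx im) g)] with y h3 h4 h5 h6
  by_cases hf : f y = 0
  · exact Or.inl hf
  right
  rw [h5, Pi.add_apply, h6, Pi.smul_apply, h3.resolve_left hf, h4.resolve_left hf]
  simp

end Pool.Agent.Helper36.XR
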